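import Pool.Agent.N561.A.Stm
import Pool.Agent.W588.HT.LapSum

/-!
# The saddle point method for sums, critical point in the lower half plane

Subtask `S_LAPW` of `Pool.Agent.N561.A.Stm`.
-/

set_option autoImplicit false

namespace Pool.Agent.N789.VS

open Filter Topology Metric Set MeasureTheory Pool.Agent.W709.VC Pool.Agent.W588.HT
open scoped Real Interval

/-- near a vertical side, with the weight of the upper half plane -/
theorem sidew {Q : ℂ → ℂ} {U : Set ℂ} (hU : IsOpen U) (hQ : ContinuousOn Q U) {a h v : ℝ}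
    (hK : ∀ y : ℝ, |y| ≤ h → (a : ℂ) + y * Complex.I ∈ U)
    (hlt : ∀ y : ℝ, |y| ≤ h → (Q (a + y * Complex.I)).re - 2 * π * max y 0 < v) :
    ∃ κ : ℝ, 0 < κ ∧ ∃ δ : ℝ, 0 < δ ∧ ∀ x : ℝ, |x - a| < δ → ∀ y : ℝ, |y| ≤ h →
      (x : ℂ) + y * Complex.I ∈ U ∧ (Q (x + y * Complex.I)).re - 2 * π * max y 0 ≤ v - κ := by
  obtain ⟨κ, hκ, hg⟩ := cgap (K := Icc (-h) h) isCompact_Icc
    (φ := fun y : ℝ => (Q (a + y * Complex.I)).re - 2 * π * max y 0) (v := v) (by
      apply ContinuousOn.sub
      · apply Complex.continuous_re.comp_continuousOn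
        apply hQ.comp (by fun_prop)
        intro y hy
        exact hK y (abs_le.2 ⟨hy.1, hy.2⟩)
      · exact (by fun_prop : Continuous fun y : ℝ => 2 * π * max y 0).continuousOn)
    (fun y hy => hlt y (abs_le.2 ⟨hy.1, hy.2⟩))
  have h1 := (isCompact_Icc (a := -h) (b := h)).eventually_forall_of_forall_eventually (x₀ := a)
    (P := fun x y => (x : ℂ) + y * Complex.I ∈ U ∧
      (Q (x + y * Complex.I)).re - 2 * π * max y 0 < v - κ / 2) (by
      intro y hy
      have hyU := hK y (abs_le.2 ⟨hy.1, hy.2⟩)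
      have hc : ContinuousAt (fun z : ℝ × ℝ => (z.1 : ℂ) + z.2 * Complex.I) (a, y) := by fun_prop
      have hQc : ContinuousAt Q ((a : ℂ) + y * Complex.I) := hQ.continuousAt (hU.mem_nhds hyU)
      have h1 : ∀ᶠ z : ℝ × ℝ in 𝓝 (a, y), (z.1 : ℂ) + z.2 * Complex.I ∈ U :=
        hc.eventually (hU.mem_nhds hyU)
      have h2 : ContinuousAt (fun z : ℝ × ℝ => (Q ((z.1 : ℂ) + z.2 * Complex.I)).re) (a, y) :=
        Complex.continuous_re.continuousAt.comp (ContinuousAt.comp (g := Q)
          (f := fun z : ℝ × ℝ => (z.1 : ℂ) + z.2 * Complex.I) hQc hc)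
      have h2' : ContinuousAt (fun z : ℝ × ℝ => (Q ((z.1 : ℂ) + z.2 * Complex.I)).re -
          2 * π * max z.2 0) (a, y) :=
        h2.sub (by fun_prop : Continuous fun z : ℝ × ℝ => 2 * π * max z.2 0).continuousAt
      have h3 : ∀ᶠ z : ℝ × ℝ in 𝓝 (a, y), (Q ((z.1 : ℂ) + z.2 * Complex.I)).re -
          2 * π * max z.2 0 < v - κ / 2 := by
        apply h2'.tendsto.eventually_lt_const
        have := hg y hy
        simp only at this ⊢
        linarith
      exact h1.and h3)
  obtain ⟨δ, hδ, hb⟩ := Metric.eventually_nhds_iff.1 h1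
  refine ⟨κ / 2, by positivity, δ, hδ, fun x hx y hy => ?_⟩
  have h2 := hb (y := x) (by rwa [Real.dist_eq]) y (abs_le.1 hy)
  exact ⟨h2.1, h2.2.le⟩

/-- the kernel plus one on the half-integer lines -/
theorem kk1_half (n : ℤ) (y : ℝ) :
    ‖kk (((n - 1 / 2 : ℝ) : ℂ) + y * Complex.I) + 1‖ ≤ Real.exp (-(2 * π * max y 0)) := by
  have hne := EE_half_ne n y
  have e3 : kk (((n - 1 / 2 : ℝ) : ℂ) + y * Complex.I) + 1 =
      ee (((n - 1 / 2 : ℝ) : ℂ) + y * Complex.I) / EE (((n - 1 / 2 : ℝ) : ℂ) + y * Complex.I) := by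
    unfold kk
    rw [eq_div_iff hne, add_mul, one_mul, one_div, inv_mul_cancel₀ hne]
    unfold EE
    ring
  rw [e3, norm_div, EE_half, ee_half, norm_neg, norm_neg, Complex.norm_real, Complex.norm_real,
    Real.norm_eq_abs, Real.norm_eq_abs, abs_of_pos (Real.exp_pos _),
    abs_of_pos (by positivity)]
  have h0 : 0 < Real.exp (-(2 * π * y)) := Real.exp_pos _
  rw [div_le_iff₀ (by positivity)]
  have hpi := Real.pi_pos
  rcases le_total y 0 with hy | hy
  · rw [max_eq_right hy]
    simp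
  · rw [max_eq_left hy]
    nlinarith [mul_pos h0 h0]

theorem lapw' (q : ℕ → ℂ → ℂ) (Q : ℂ → ℂ) (U : Set ℂ) (a b h : ℝ) (z : ℂ)
    (A B : ℕ → ℕ) (hU : IsOpen U) (hq : ∀ᶠ N : ℕ in atTop, DifferentiableOn ℂ (q N) U)
    (hQ : DifferentiableOn ℂ Q U) (hqQ : TendstoUniformlyOn q Q atTop U)
    (hK : ∀ x y : ℝ, a ≤ x → x ≤ b → |y| ≤ h → (x : ℂ) + y * Complex.I ∈ U) (hh : 0 < h)
    (hA : Tendsto (fun N : ℕ => (A N : ℝ) / N) atTop (𝓝 a))
    (hB : Tendsto (fun N : ℕ => (B N : ℝ) / N) atTop (𝓝 b))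
    (haz : a < z.re) (hzb : z.re < b) (hzh : z.im = -h) (hcr : deriv Q z = 0)
    (hneg : (deriv (deriv Q) z).re < 0)
    (hmax : ∀ x : ℝ, a ≤ x → x ≤ b → x ≠ z.re → (Q (x + z.im * Complex.I)).re < (Q z).re)
    (hsd : ∀ y : ℝ, |y| ≤ h → (Q (a + y * Complex.I)).re - 2 * π * max y 0 < (Q z).re ∧
      (Q (b + y * Complex.I)).re - 2 * π * max y 0 < (Q z).re)
    (htb : ∀ x : ℝ, a ≤ x → x ≤ b → (Q (x + h * Complex.I)).re - 2 * π * h < (Q z).re) :
    Gro (fun N : ℕ => ∑ d ∈ Finset.Ico (A N) (B N), Complex.exp (N * q N ((d : ℂ) / N)))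
      (Q z).re := by
  set v : ℝ := (Q z).re with hv
  have hab : a < b := haz.trans hzb
  have hpi := Real.pi_pos
  obtain ⟨κa, hκa, δa, hδa, hsa⟩ := sidew hU hQ.continuousOn (a := a) (h := h) (v := v)
    (fun y hy => hK a y le_rfl hab.le hy) (fun y hy => (hsd y hy).1)
  obtain ⟨κb, hκb, δb, hδb, hsb⟩ := sidew hU hQ.continuousOn (a := b) (h := h) (v := v)
    (fun y hy => hK b y hab.le le_rfl hy) (fun y hy => (hsd y hy).2)
  have hcont : ContinuousOn (fun x : ℝ => (Q (x + h * Complex.I)).re - 2 * π * h)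
      (Icc a b) := by
    apply ContinuousOn.sub _ continuousOn_const
    apply Complex.continuous_re.comp_continuousOn
    apply hQ.continuousOn.comp (by fun_prop)
    intro x hx
    exact hK x h hx.1 hx.2 (by rw [abs_of_pos hh])
  obtain ⟨κt, hκt, hgt⟩ := cgap isCompact_Icc hcont (v := v) (fun x hx => htb x hx.1 hx.2)
  -- common constants
  obtain ⟨κ, hκ, hκa', hκb', hκt', hκu'⟩ : ∃ κ : ℝ, 0 < κ ∧ κ ≤ κa ∧ κ ≤ κb ∧ κ ≤ κt ∧
      κ ≤ 2 * π * h :=
    ⟨min (min κa κb) (min κt (2 * π * h)), by positivity, (min_le_left _ _).trans (min_le_left _ _),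
      (min_le_left _ _).trans (min_le_right _ _), (min_le_right _ _).trans (min_le_left _ _),
      (min_le_right _ _).trans (min_le_right _ _)⟩
  obtain ⟨δ, hδ, hδa', hδb', hδ1, hδ2⟩ : ∃ δ : ℝ, 0 < δ ∧ δ < δa ∧ δ < δb ∧ δ < z.re - a ∧
      δ < b - z.re := by
    refine ⟨min (min δa δb) (min (z.re - a) (b - z.re)) / 2, ?_, ?_, ?_, ?_, ?_⟩
    · have h1 : 0 < z.re - a := by linarith
      have h2 : 0 < b - z.re := by linarith
      positivity
    all_goals
      have h1 : 0 < z.re - a := by linarith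
      have h2 : 0 < b - z.re := by linarith
      have h3 : 0 < min (min δa δb) (min (z.re - a) (b - z.re)) := by positivity
      have h4 : min (min δa δb) (min (z.re - a) (b - z.re)) ≤ δa :=
        (min_le_left _ _).trans (min_le_left _ _)
      have h5 : min (min δa δb) (min (z.re - a) (b - z.re)) ≤ δb :=
        (min_le_left _ _).trans (min_le_right _ _)
      have h6 : min (min δa δb) (min (z.re - a) (b - z.re)) ≤ z.re - a :=
        (min_le_right _ _).trans (min_le_left _ _)
      have h7 : min (min δa δb) (min (z.re - a) (b - z.re)) ≤ b - z.re :=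
        (min_le_right _ _).trans (min_le_right _ _)
      linarith
  -- the extended window
  have hext : ∀ x : ℝ, a - δ ≤ x → x ≤ b + δ → |x - a| < δa ∨ |x - b| < δb ∨ (a ≤ x ∧ x ≤ b) := by
    intro x h1 h2
    by_cases h3 : a ≤ x
    · by_cases h4 : x ≤ b
      · exact Or.inr (Or.inr ⟨h3, h4⟩)
      · right; left
        rw [abs_lt]; constructor <;> linarith
    · left
      rw [abs_lt]; constructor <;> linarith
  have hKe : ∀ x y : ℝ, a - δ ≤ x → x ≤ b + δ → |y| ≤ h → (x : ℂ) + y * Complex.I ∈ U := by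
    intro x y h1 h2 hy
    rcases hext x h1 h2 with h3 | h3 | h3
    · exact (hsa x h3 y hy).1
    · exact (hsb x h3 y hy).1
    · exact hK x y h3.1 h3.2 hy
  have hzim : |z.im| ≤ h := by rw [hzh, abs_neg, abs_of_pos hh]
  have hzmax : max z.im 0 = 0 := max_eq_right (by rw [hzh]; linarith)
  have hmaxe : ∀ x : ℝ, a - δ ≤ x → x ≤ b + δ → x ≠ z.re →
      (Q (x + z.im * Complex.I)).re < v := by
    intro x h1 h2 hx
    rcases hext x h1 h2 with h3 | h3 | h3
    · have h4 := (hsa x h3 z.im hzim).2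
      rw [hzmax] at h4
      linarith
    · have h4 := (hsb x h3 z.im hzim).2
      rw [hzmax] at h4
      linarith
    · exact hmax x h3.1 h3.2 hx
  have hmaxl : ∀ x : ℝ, a - δ ≤ x → x ≤ b + δ → (Q (x + ((-h : ℝ) : ℂ) * Complex.I)).re ≤ v := by
    intro x h1 h2
    by_cases hx : x = z.re
    · rw [hx, ← hzh, Complex.re_add_im]
    · rw [← hzh]
      exact (hmaxe x h1 h2 hx).le
  have htope : ∀ x : ℝ, a - δ ≤ x → x ≤ b + δ →
      (Q (x + h * Complex.I)).re ≤ v - κ + 2 * π * h := by
    intro x h1 h2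
    have hh1 : |h| ≤ h := by rw [abs_of_pos hh]
    have hhm : max h 0 = h := max_eq_left hh.le
    rcases hext x h1 h2 with h3 | h3 | h3
    · have h4 := (hsa x h3 h hh1).2
      rw [hhm] at h4
      linarith
    · have h4 := (hsb x h3 h hh1).2
      rw [hhm] at h4
      linarith
    · linarith [hgt x ⟨h3.1, h3.2⟩]
  -- the same for q N
  have hqQ' := hqQ
  rw [Metric.tendstoUniformlyOn_iff] at hqQ'
  have hre : ∀ᶠ N in atTop, ∀ w ∈ U, (q N w).re ≤ (Q w).re + κ / 2 := by
    filter_upwards [hqQ' (κ / 2) (by positivity)] with N hN w hw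
    have h1 := hN w hw
    rw [dist_comm, dist_eq_norm] at h1
    have h2 := (abs_le.1 (Complex.abs_re_le_norm (q N w - Q w))).2
    rw [Complex.sub_re] at h2
    linarith
  -- end points
  set α : ℕ → ℝ := fun N => ((A N : ℝ) - 1 / 2) / N with hα
  set β : ℕ → ℝ := fun N => ((B N : ℝ) - 1 / 2) / N with hβ
  have hhalf : Tendsto (fun N : ℕ => (1 / 2 : ℝ) / N) atTop (𝓝 0) :=
    tendsto_const_div_atTop_nhds_zero_nat _
  have hαt : Tendsto α atTop (𝓝 a) := by
    have := hA.sub hhalf
    rw [sub_zero] at this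
    refine this.congr fun N => ?_
    simp only [hα]
    rw [sub_div]
  have hβt : Tendsto β atTop (𝓝 b) := by
    have := hB.sub hhalf
    rw [sub_zero] at this
    refine this.congr fun N => ?_
    simp only [hβ]
    rw [sub_div]
  have hαe : ∀ᶠ N in atTop, |α N - a| < δ := by
    have := hαt.eventually (Metric.ball_mem_nhds a hδ)
    filter_upwards [this] with N hN
    rwa [Real.dist_eq] at hN
  have hβe : ∀ᶠ N in atTop, |β N - b| < δ := by
    have := hβt.eventually (Metric.ball_mem_nhds b hδ)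
    filter_upwards [this] with N hN
    rwa [Real.dist_eq] at hN
  -- main term
  obtain ⟨δ', hδ', hδ'1, hδ'2⟩ : ∃ δ' : ℝ, 0 < δ' ∧ a + δ + δ' ≤ z.re ∧ z.re + δ' ≤ b - δ := by
    refine ⟨min (z.re - a - δ) (b - δ - z.re), lt_min (by linarith) (by linarith), ?_, ?_⟩
    · have := min_le_left (z.re - a - δ) (b - δ - z.re); linarith
    · have := min_le_right (z.re - a - δ) (b - δ - z.re); linarith
  set I0 : ℕ → ℂ := fun N => ∫ x in (α N)..(β N), Complex.exp (N * q N (x + z.im * Complex.I))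
    with hI0
  have hG0 : Gro I0 v := by
    have h1 := core q (fun _ _ => 1) Q (fun _ => 1) U (a - δ) (b + δ) z hU hq hQ hqQ
      (Eventually.of_forall fun _ => differentiableOn_const _) (differentiableOn_const _)
      (by
        rw [Metric.tendstoUniformlyOn_iff]
        intro ε hε
        refine Eventually.of_forall fun N x _ => ?_
        rw [dist_self]; exact hε) (by linarith) (by linarith)
      (fun x h1 h2 => hKe x z.im h1 h2 hzim) hcr hneg one_ne_zero hmaxe hδ' (α := α) (β := β)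
      (by
        filter_upwards [hαe] with N hN
        rw [abs_lt] at hN
        constructor <;> linarith)
      (by
        filter_upwards [hβe] with N hN
        rw [abs_lt] at hN
        constructor <;> linarith)
    simpa only [one_mul] using h1
  have hside : ∀ᶠ N : ℕ in atTop, ∀ y : ℝ, |y| ≤ h →
      ‖Complex.exp (N * q N (α N + y * Complex.I))‖ * Real.exp (-(2 * π * max (N * y) 0)) ≤
        Real.exp (N * (v - κ / 2)) ∧
      ‖Complex.exp (N * q N (β N + y * Complex.I))‖ * Real.exp (-(2 * π * max (N * y) 0)) ≤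
        Real.exp (N * (v - κ / 2)) := by
    have key : ∀ (N : ℕ) (γ y : ℝ),
        (Q (γ + y * Complex.I)).re - 2 * π * max y 0 ≤ v - κ →
        (q N (γ + y * Complex.I)).re ≤ (Q (γ + y * Complex.I)).re + κ / 2 →
        ‖Complex.exp (N * q N (γ + y * Complex.I))‖ * Real.exp (-(2 * π * max (N * y) 0)) ≤
          Real.exp (N * (v - κ / 2)) := by
      intro N γ y h1 h2
      rw [Complex.norm_exp, ← Real.exp_add]
      apply Real.exp_le_exp.2
      have e1 : ((N : ℂ) * q N (γ + y * Complex.I)).re = N * (q N (γ + y * Complex.I)).re := by simp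
      have e2 : max ((N : ℝ) * y) 0 = N * max y 0 := by
        rw [mul_max_of_nonneg _ _ (Nat.cast_nonneg N), mul_zero]
      rw [e1, e2]
      have e3 : (q N (γ + y * Complex.I)).re - 2 * π * max y 0 ≤ v - κ / 2 := by linarith
      have e4 := mul_le_mul_of_nonneg_left e3 (Nat.cast_nonneg (α := ℝ) N)
      linarith
    filter_upwards [hre, hαe, hβe] with N h1 h2 h3 y hy
    constructor
    · have h4 := hsa (α N) (by linarith) y hy
      exact key N (α N) y (by linarith [h4.2]) (h1 _ h4.1)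
    · have h4 := hsb (β N) (by linarith) y hy
      exact key N (β N) y (by linarith [h4.2]) (h1 _ h4.1)
  -- the sum
  have hmain : ∀ᶠ N : ℕ in atTop, ‖(∑ d ∈ Finset.Ico (A N) (B N),
      Complex.exp (N * q N ((d : ℂ) / N))) - N * I0 N‖ ≤
      (4 * (b - a + 2 * δ) + 4 * h) * (N + 1) * Real.exp (N * (v - κ / 2)) := by
    have hlarge : ∀ᶠ N : ℕ in atTop, Real.exp (-(2 * π * (h * N))) ≤ 1 / 2 := by
      have h1 : ∀ᶠ N : ℕ in atTop, 1 / (2 * π * h) ≤ (N : ℝ) :=
        tendsto_natCast_atTop_atTop.eventually_ge_atTop _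
      filter_upwards [h1] with N h1
      rw [div_le_iff₀ (by positivity)] at h1
      rw [Real.exp_neg, inv_le_comm₀ (Real.exp_pos _) (by norm_num)]
      have := Real.add_one_le_exp (2 * π * (h * N))
      norm_num
      linarith
    filter_upwards [hside, hαe, hβe, hq, hre, hlarge, eventually_ge_atTop 1]
      with N h1 h2 h3 h6 h7 h8 h9
    rw [abs_lt] at h2 h3
    have hN : (1 : ℝ) ≤ N := by exact_mod_cast h9
    have hN0 : (N : ℝ) ≠ 0 := by positivity
    have hNc : (N : ℂ) ≠ 0 := by exact_mod_cast hN0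
    have hαβ : α N ≤ β N := by linarith
    have hαN : (A N : ℝ) - 1 / 2 = N * α N := by simp only [hα]; field_simp
    have hβN : (B N : ℝ) - 1 / 2 = N * β N := by simp only [hβ]; field_simp
    have hAB : A N ≤ B N := by
      have : (A N : ℝ) ≤ B N := by nlinarith
      exact_mod_cast this
    set f : ℂ → ℂ := fun w => Complex.exp (N * q N (w / N)) with hf
    set V : Set ℂ := (fun w : ℂ => w / N) ⁻¹' U with hV
    have hVo : IsOpen V := hU.preimage (by fun_prop)
    have hfd : DifferentiableOn ℂ f V := by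
      apply DifferentiableOn.cexp
      apply DifferentiableOn.const_mul
      exact h6.comp (by fun_prop) (fun w hw => hw)
    have hNh : 0 < h * N := by positivity
    have hdiv : ∀ x y : ℝ, ((x : ℂ) + y * Complex.I) / N = ((x / N : ℝ) : ℂ) + ((y / N : ℝ) : ℂ) *
        Complex.I := by
      intro x y; push_cast; field_simp
    have hyb : ∀ y : ℝ, |y| ≤ h * N → |y / N| ≤ h := by
      intro y hy
      rw [abs_div, Nat.abs_cast, div_le_iff₀ (by positivity)]
      exact hy
    have hxb : ∀ x : ℝ, (A N : ℝ) - 1 / 2 ≤ x → x ≤ B N - 1 / 2 → a - δ ≤ x / N ∧ x / N ≤ b + δ := by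
      intro x hx1 hx2
      have e1 : α N ≤ x / N := by
        rw [le_div_iff₀ (by positivity)]; linarith
      have e2 : x / N ≤ β N := by
        rw [div_le_iff₀ (by positivity)]; linarith
      constructor <;> linarith
    have hin : ∀ x y : ℝ, (A N : ℝ) - 1 / 2 ≤ x → x ≤ B N - 1 / 2 → |y| ≤ h * N →
        (x : ℂ) + y * Complex.I ∈ V := by
      intro x y hx1 hx2 hy
      show ((x : ℂ) + y * Complex.I) / N ∈ U
      rw [hdiv]
      exact hKe _ _ (hxb x hx1 hx2).1 (hxb x hx1 hx2).2 (hyb y hy)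
    have hABr : (A N : ℝ) - 1 / 2 ≤ (B N : ℝ) - 1 / 2 := by
      have : (A N : ℝ) ≤ B N := by exact_mod_cast hAB
      linarith
    have hsum := sum_rect hVo hfd hAB (H := h * N) hNh hin
    have hsum' : (∑ d ∈ Finset.Ico (A N) (B N), Complex.exp (N * q N ((d : ℂ) / N))) =
        ∑ d ∈ Finset.Ico (A N) (B N), f d := rfl
    -- the boundary
    have hBd : ∀ w ∈ Bd ((A N : ℝ) - 1 / 2) ((B N : ℝ) - 1 / 2) (-(h * N)) (h * N),
        ContinuousAt f w ∧ EE w ≠ 0 := by
      intro w hw
      constructor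
      · apply hfd.continuousOn.continuousAt (hVo.mem_nhds _)
        rcases hw with ⟨x, hx, rfl⟩ | ⟨x, hx, rfl⟩ | ⟨y, hy, rfl⟩ | ⟨y, hy, rfl⟩
        · rw [uIcc_of_le hABr] at hx
          exact hin x _ hx.1 hx.2 (by rw [abs_neg, abs_of_pos hNh])
        · rw [uIcc_of_le hABr] at hx
          exact hin x _ hx.1 hx.2 (by rw [abs_of_pos hNh])
        · rw [uIcc_of_le (by linarith)] at hy
          exact hin _ y hABr le_rfl (abs_le.2 ⟨hy.1, hy.2⟩)
        · rw [uIcc_of_le (by linarith)] at hy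
          exact hin _ y le_rfl hABr (abs_le.2 ⟨hy.1, hy.2⟩)
      · exact EE_Bd (m := (A N : ℤ)) (n := (B N : ℤ)) hNh (by push_cast; exact hw)
    have hrf : rect f ((A N : ℝ) - 1 / 2) ((B N : ℝ) - 1 / 2) (-(h * N)) (h * N) = 0 := by
      have h3 := Complex.integral_boundary_rect_eq_zero_of_differentiableOn f
        ⟨(A N : ℝ) - 1 / 2, -(h * N)⟩ ⟨(B N : ℝ) - 1 / 2, h * N⟩ (hfd.mono (by
          intro w hw
          rw [Complex.mem_reProdIm] at hw
          simp only at hw
          rw [uIcc_of_le hABr, uIcc_of_le (by linarith)] at hw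
          have := hin w.re w.im hw.1.1 hw.1.2 (abs_le.2 ⟨hw.2.1, hw.2.2⟩)
          rwa [Complex.re_add_im] at this))
      simpa [rect] using h3
    have hRf : RI f ((A N : ℝ) - 1 / 2) ((B N : ℝ) - 1 / 2) (-(h * N)) (h * N) :=
      RI_of_cont fun w hw => (hBd w hw).1
    have hRk : RI (fun w => f w * kk w) ((A N : ℝ) - 1 / 2) ((B N : ℝ) - 1 / 2) (-(h * N))
        (h * N) :=
      RI_of_cont fun w hw => (hBd w hw).1.mul (kk_cont (hBd w hw).2)
    have hsum2 : (∑ d ∈ Finset.Ico (A N) (B N), Complex.exp (N * q N ((d : ℂ) / N))) =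
        rect (fun w => f w * (kk w + 1)) ((A N : ℝ) - 1 / 2) ((B N : ℝ) - 1 / 2) (-(h * N))
          (h * N) := by
      have e1 := rect_add hRk hRf
      rw [hrf, add_zero] at e1
      rw [hsum', hsum, ← e1]
      apply rect_congr
      intro w _
      ring
    -- scaling of the main term
    have hI1' : (N : ℂ) * I0 N = ∫ x in ((A N : ℝ) - 1 / 2)..((B N : ℝ) - 1 / 2),
        f (x + ((-(h * N) : ℝ) : ℂ) * Complex.I) := by
      have e1 := intervalIntegral.integral_comp_div (a := (A N : ℝ) - 1 / 2)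
        (b := (B N : ℝ) - 1 / 2) (fun x : ℝ => Complex.exp (N * q N (x + z.im * Complex.I))) hN0
      simp only [hI0]
      rw [Complex.real_smul] at e1
      rw [show ((N : ℝ) : ℂ) = (N : ℂ) by simp] at e1
      rw [← e1]
      apply intervalIntegral.integral_congr
      intro x _
      simp only [hf]
      congr 3
      rw [hdiv, hzh]
      congr 2
      congr 1
      field_simp
    set T : ℝ := Real.exp (N * (v - κ / 2)) with hT
    have hT0 : 0 < T := Real.exp_pos _
    -- bound on the top and bottom lines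
    have hfn : ∀ x y : ℝ, ‖f (x + y * Complex.I)‖ =
        Real.exp (N * (q N (((x / N : ℝ) : ℂ) + ((y / N : ℝ) : ℂ) * Complex.I)).re) := by
      intro x y
      simp only [hf]
      rw [Complex.norm_exp, hdiv]
      congr 1
      simp
    have hexp : ∀ x c : ℝ, (A N : ℝ) - 1 / 2 ≤ x → x ≤ B N - 1 / 2 → (c = h ∨ c = -h) →
        ‖f (x + ((c * N : ℝ) : ℂ) * Complex.I)‖ * Real.exp (-(2 * π * (h * N))) ≤ T := by
      intro x c hx1 hx2 hc
      rw [hfn, ← Real.exp_add]
      apply Real.exp_le_exp.2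
      have e1 : c * N / N = c := by field_simp
      rw [e1]
      have hb := hxb x hx1 hx2
      have hcU := hKe (x / N) c hb.1 hb.2 (by
        rcases hc with rfl | rfl
        · rw [abs_of_pos hh]
        · rw [abs_neg, abs_of_pos hh])
      have e2 := h7 _ hcU
      have e3 : (Q (((x / N : ℝ) : ℂ) + c * Complex.I)).re ≤ v - κ + 2 * π * h := by
        rcases hc with rfl | rfl
        · exact htope (x / N) hb.1 hb.2
        · have := hmaxl (x / N) hb.1 hb.2
          linarith
      have e4 : (q N (((x / N : ℝ) : ℂ) + c * Complex.I)).re - 2 * π * h ≤ v - κ / 2 := by linarith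
      have e5 := mul_le_mul_of_nonneg_left e4 (show (0:ℝ) ≤ N by positivity)
      linarith
    have hBA : |((B N : ℝ) - 1 / 2) - ((A N : ℝ) - 1 / 2)| ≤ N * (b - a + 2 * δ) := by
      rw [hαN, hβN, ← mul_sub, abs_mul, Nat.abs_cast]
      apply mul_le_mul_of_nonneg_left _ (by positivity)
      rw [abs_le]
      constructor <;> linarith
    -- bottom
    have hbot : ‖∫ x in ((A N : ℝ) - 1 / 2)..((B N : ℝ) - 1 / 2),
        f (x + ((-(h * N) : ℝ) : ℂ) * Complex.I) * kk (x + ((-(h * N) : ℝ) : ℂ) * Complex.I)‖ ≤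
        2 * T * (N * (b - a + 2 * δ)) := by
      refine (intervalIntegral.norm_integral_le_of_norm_le_const (C := 2 * T) ?_).trans
        (mul_le_mul_of_nonneg_left hBA (by positivity))
      intro x hx
      rw [uIoc_of_le hABr] at hx
      have e1 := hexp x (-h) hx.1.le hx.2 (Or.inr rfl)
      rw [show -h * (N : ℝ) = -(h * N) by ring] at e1
      rw [norm_mul]
      have e2 : ‖kk (x + ((-(h * N) : ℝ) : ℂ) * Complex.I)‖ ≤ 2 * Real.exp (-(2 * π * (h * N))) := by
        unfold kk EE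
        rw [norm_div, norm_one]
        have e3 := norm_sub_norm_le (ee (x + ((-(h * N) : ℝ) : ℂ) * Complex.I)) 1
        rw [ee_norm, norm_one] at e3
        have e4 : -(2 * π * -(h * N)) = 2 * π * (h * N) := by ring
        rw [e4] at e3
        set E : ℝ := Real.exp (2 * π * (h * N)) with hE
        have e5 : Real.exp (-(2 * π * (h * N))) = E⁻¹ := by rw [Real.exp_neg]
        rw [e5] at h8 ⊢
        have hE0 : 0 < E := Real.exp_pos _
        have e6 : 2 ≤ E := by
          rw [inv_le_comm₀ hE0 (by norm_num)] at h8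
          norm_num at h8
          exact h8
        rw [div_le_iff₀ (by linarith)]
        calc (1 : ℝ) = 2 * E⁻¹ * (E / 2) := by field_simp
          _ ≤ 2 * E⁻¹ * ‖ee (x + ((-(h * N) : ℝ) : ℂ) * Complex.I) - 1‖ := by
            apply mul_le_mul_of_nonneg_left _ (by positivity)
            linarith
      calc _ ≤ ‖f (x + ((-(h * N) : ℝ) : ℂ) * Complex.I)‖ * (2 * Real.exp (-(2 * π * (h * N)))) :=
            mul_le_mul_of_nonneg_left e2 (norm_nonneg _)
        _ = 2 * (‖f (x + ((-(h * N) : ℝ) : ℂ) * Complex.I)‖ * Real.exp (-(2 * π * (h * N)))) := by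
          ring
        _ ≤ 2 * T := by linarith
    -- top
    have htop : ‖∫ x in ((A N : ℝ) - 1 / 2)..((B N : ℝ) - 1 / 2),
        f (x + ((h * N : ℝ) : ℂ) * Complex.I) * (kk (x + ((h * N : ℝ) : ℂ) * Complex.I) + 1)‖ ≤
        2 * T * (N * (b - a + 2 * δ)) := by
      refine (intervalIntegral.norm_integral_le_of_norm_le_const (C := 2 * T) ?_).trans
        (mul_le_mul_of_nonneg_left hBA (by positivity))
      intro x hx
      rw [uIoc_of_le hABr] at hx
      have e1 := hexp x h hx.1.le hx.2 (Or.inl rfl)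
      rw [norm_mul]
      have e2 : ‖kk (x + ((h * N : ℝ) : ℂ) * Complex.I) + 1‖ ≤
          2 * Real.exp (-(2 * π * (h * N))) := by
        have hne : ee (x + ((h * N : ℝ) : ℂ) * Complex.I) - 1 ≠ 0 := EE_ne_of_im hNh.ne'
        have e3 : kk (x + ((h * N : ℝ) : ℂ) * Complex.I) + 1 =
            ee (x + ((h * N : ℝ) : ℂ) * Complex.I) /
              (ee (x + ((h * N : ℝ) : ℂ) * Complex.I) - 1) := by
          unfold kk EE
          field_simp
          ring
        rw [e3, norm_div]
        have e4 := norm_sub_norm_le 1 (ee (x + ((h * N : ℝ) : ℂ) * Complex.I))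
        rw [norm_sub_rev, norm_one, ee_norm] at e4
        rw [ee_norm]
        set E : ℝ := Real.exp (-(2 * π * (h * N))) with hE
        have hE0 : 0 < E := Real.exp_pos _
        rw [div_le_iff₀ (by linarith)]
        calc E = 2 * E * (1 / 2) := by ring
          _ ≤ 2 * E * ‖ee (x + ((h * N : ℝ) : ℂ) * Complex.I) - 1‖ := by
            apply mul_le_mul_of_nonneg_left _ (by positivity)
            linarith
      calc _ ≤ ‖f (x + ((h * N : ℝ) : ℂ) * Complex.I)‖ * (2 * Real.exp (-(2 * π * (h * N)))) :=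
            mul_le_mul_of_nonneg_left e2 (norm_nonneg _)
        _ = 2 * (‖f (x + ((h * N : ℝ) : ℂ) * Complex.I)‖ * Real.exp (-(2 * π * (h * N)))) := by
          ring
        _ ≤ 2 * T := by linarith
    -- vertical sides
    have hvert : ∀ (n : ℕ) (γ : ℝ), (n : ℝ) - 1 / 2 = N * γ →
        (∀ y : ℝ, |y| ≤ h → ‖Complex.exp (N * q N (γ + y * Complex.I))‖ *
          Real.exp (-(2 * π * max (N * y) 0)) ≤ T) →
        ‖∫ y in (-(h * N))..(h * N), f (((n - 1 / 2 : ℝ) : ℂ) + y * Complex.I) *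
          (kk (((n - 1 / 2 : ℝ) : ℂ) + y * Complex.I) + 1)‖ ≤ T * (2 * h * N) := by
      intro n γ hγ hb
      have hlen : |h * N - -(h * N)| = 2 * h * N := by
        rw [sub_neg_eq_add, abs_of_pos (by positivity)]
        ring
      rw [← hlen]
      apply intervalIntegral.norm_integral_le_of_norm_le_const
      intro y hy
      rw [uIoc_of_le (by linarith)] at hy
      have hy' : |y| ≤ h * N := abs_le.2 ⟨hy.1.le, hy.2⟩
      have e1 := kk1_half (n : ℤ) y
      rw [norm_mul]
      have e2 := hb _ (hyb y hy')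
      have e5 : (N : ℝ) * (y / N) = y := by field_simp
      rw [e5] at e2
      have e3 : ((n : ℝ) - 1 / 2) / N = γ := by rw [hγ]; field_simp
      have e6 : f (((n - 1 / 2 : ℝ) : ℂ) + y * Complex.I) =
          Complex.exp (N * q N (γ + ((y / N : ℝ) : ℂ) * Complex.I)) := by
        simp only [hf]
        rw [hdiv, e3]
      have e4 : ‖kk (((n - 1 / 2 : ℝ) : ℂ) + y * Complex.I) + 1‖ ≤
          Real.exp (-(2 * π * max y 0)) := by
        have := e1
        push_cast at this ⊢
        exact this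
      rw [e6]
      exact (mul_le_mul_of_nonneg_left e4 (norm_nonneg _)).trans e2
    have hv1 := hvert (B N) (β N) hβN (fun y hy => (h1 y hy).2)
    have hv2 := hvert (A N) (α N) hαN (fun y hy => (h1 y hy).1)
    have hbsplit : (∫ x in ((A N : ℝ) - 1 / 2)..((B N : ℝ) - 1 / 2),
        f (x + ((-(h * N) : ℝ) : ℂ) * Complex.I) *
          (kk (x + ((-(h * N) : ℝ) : ℂ) * Complex.I) + 1)) =
        (∫ x in ((A N : ℝ) - 1 / 2)..((B N : ℝ) - 1 / 2),
        f (x + ((-(h * N) : ℝ) : ℂ) * Complex.I) * kk (x + ((-(h * N) : ℝ) : ℂ) * Complex.I)) +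
        N * I0 N := by
      rw [hI1', ← intervalIntegral.integral_add hRk.1 hRf.1]
      apply intervalIntegral.integral_congr
      intro x _
      simp only
      ring
    rw [hsum2]
    unfold rect
    rw [hbsplit]
    have efin : ((∫ x in ((A N : ℝ) - 1 / 2)..((B N : ℝ) - 1 / 2),
        f (x + ((-(h * N) : ℝ) : ℂ) * Complex.I) * kk (x + ((-(h * N) : ℝ) : ℂ) * Complex.I)) +
        N * I0 N -
        (∫ x in ((A N : ℝ) - 1 / 2)..((B N : ℝ) - 1 / 2),
        f (x + ((h * N : ℝ) : ℂ) * Complex.I) * (kk (x + ((h * N : ℝ) : ℂ) * Complex.I) + 1)) +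
        Complex.I * (∫ y in (-(h * N))..(h * N), f (((B N - 1 / 2 : ℝ) : ℂ) + y * Complex.I) *
          (kk (((B N - 1 / 2 : ℝ) : ℂ) + y * Complex.I) + 1)) -
        Complex.I * (∫ y in (-(h * N))..(h * N), f (((A N - 1 / 2 : ℝ) : ℂ) + y * Complex.I) *
          (kk (((A N - 1 / 2 : ℝ) : ℂ) + y * Complex.I) + 1))) - N * I0 N =
        (∫ x in ((A N : ℝ) - 1 / 2)..((B N : ℝ) - 1 / 2),
        f (x + ((-(h * N) : ℝ) : ℂ) * Complex.I) * kk (x + ((-(h * N) : ℝ) : ℂ) * Complex.I)) +
        (-(∫ x in ((A N : ℝ) - 1 / 2)..((B N : ℝ) - 1 / 2),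
        f (x + ((h * N : ℝ) : ℂ) * Complex.I) * (kk (x + ((h * N : ℝ) : ℂ) * Complex.I) + 1))) +
        Complex.I * (∫ y in (-(h * N))..(h * N), f (((B N - 1 / 2 : ℝ) : ℂ) + y * Complex.I) *
          (kk (((B N - 1 / 2 : ℝ) : ℂ) + y * Complex.I) + 1)) -
        Complex.I * (∫ y in (-(h * N))..(h * N), f (((A N - 1 / 2 : ℝ) : ℂ) + y * Complex.I) *
          (kk (((A N - 1 / 2 : ℝ) : ℂ) + y * Complex.I) + 1)) := by ring
    rw [efin]
    refine (norm_sub_le _ _).trans ?_
    refine (add_le_add_left (norm_add₃_le) _).trans ?_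
    rw [norm_mul, norm_mul, Complex.norm_I, one_mul, one_mul, norm_neg]
    have e9 : 0 < b - a + 2 * δ := by linarith
    calc _ ≤ 2 * T * (N * (b - a + 2 * δ)) + 2 * T * (N * (b - a + 2 * δ)) + T * (2 * h * N) +
          T * (2 * h * N) := by linarith
      _ = (4 * (b - a + 2 * δ) + 4 * h) * N * T := by ring
      _ ≤ (4 * (b - a + 2 * δ) + 4 * h) * (N + 1) * T := by
        apply mul_le_mul_of_nonneg_right _ hT0.le
        apply mul_le_mul_of_nonneg_left _ (by positivity)
        linarith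
  have hfin := (hG0.natMul).add (neg_of_bound (v := v) (κ := κ / 2) (by positivity) hmain)
  refine fun ε hε => ?_
  filter_upwards [hfin ε hε] with N hN
  have e1 : (N : ℂ) * I0 N + ((∑ d ∈ Finset.Ico (A N) (B N),
      Complex.exp (N * q N ((d : ℂ) / N))) - N * I0 N) =
      ∑ d ∈ Finset.Ico (A N) (B N), Complex.exp (N * q N ((d : ℂ) / N)) := by ring
  rwa [e1] at hN

/-- job A3 -/
theorem lapw : Pool.Agent.N561.S_LAPW := by
  intro q Q U a b z A B hU hq hQ hqQ hK hz hA hB haz hzb hcr hneg hmax hs1 hs2 htop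
  have hpi := Real.pi_pos
  have hsd : ∀ y : ℝ, |y| ≤ -z.im → (Q (a + y * Complex.I)).re - 2 * π * max y 0 < (Q z).re ∧
      (Q (b + y * Complex.I)).re - 2 * π * max y 0 < (Q z).re := by
    intro y hy
    rw [abs_le] at hy
    rcases le_total y 0 with h0 | h0
    · rw [max_eq_right h0, mul_zero, sub_zero, sub_zero]
      exact hs1 y (by linarith) h0
    · rw [max_eq_left h0]
      exact hs2 y h0 hy.2
  have htb : ∀ x : ℝ, a ≤ x → x ≤ b →
      (Q (x + (-z.im : ℝ) * Complex.I)).re - 2 * π * (-z.im) < (Q z).re := by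
    intro x h1 h2
    have h3 := htop x h1 h2
    have h4 : (x : ℂ) + ((-z.im : ℝ) : ℂ) * Complex.I = x - z.im * Complex.I := by
      push_cast
      ring
    rw [h4]
    linarith
  exact (lapw' q Q U a b (-z.im) z A B hU hq hQ hqQ hK (by linarith) hA hB haz hzb
    (by ring) hcr hneg hmax hsd htb).log

end Pool.Agent.N789.VS
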